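import Pool.Agent.R700.A7

set_option autoImplicit false

namespace Pool.Agent.Results.MP_4595ea_al.EssentialNotTwoSided

open Pool.Agent.R700

universe u

/-- `R` is centrally essential: for every nonzero `a` there are nonzero central `x`, `y` with
`a x = y`. -/
def CentrallyEssential (R : Type u) [Ring R] : Prop :=
  ∀ a : R, a ≠ 0 → ∃ x ∈ Subring.center R, ∃ y ∈ Subring.center R, x ≠ 0 ∧ y ≠ 0 ∧ a * x = y

/-- The right ideal `I` (a submodule over the opposite ring) meets every nonzero right ideal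
nontrivially. -/
def IsEssential {R : Type u} [Ring R] (I : Submodule Rᵐᵒᵖ R) : Prop :=
  ∀ J : Submodule Rᵐᵒᵖ R, J ≠ ⊥ → I ⊓ J ≠ ⊥

theorem mem_center_iff (a : A7 ℤ) : a ∈ Subring.center (A7 ℤ) ↔ a.x = 0 ∧ a.y = 0 := by
  rw [Subring.mem_center_iff]
  constructor
  · intro h
    have h1 := congrArg A7.c (h ⟨0, 1, 0, 0, 0, 0, 0⟩)
    have h2 := congrArg A7.c (h ⟨0, 0, 1, 0, 0, 0, 0⟩)
    simp at h1 h2
    exact ⟨h2.symm, h1⟩
  · rintro ⟨h1, h2⟩ b
    ext <;> simp [h1, h2] <;> ring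

theorem cE : CentrallyEssential (A7 ℤ) := by
  intro a ha
  by_cases ho : a.o = 0
  · by_cases hxy : a.x = 0 ∧ a.y = 0
    · exact ⟨1, one_mem _, a, (mem_center_iff a).2 hxy, by
        intro h; have := congrArg A7.o h; simp at this, ha, mul_one a⟩
    · refine ⟨⟨0, 0, 0, 1, 0, 0, 0⟩, (mem_center_iff _).2 ⟨rfl, rfl⟩, _,
        (mem_center_iff _).2 ?_, ?_, ?_, rfl⟩
      · simp
      · intro h; have := congrArg A7.z h; simp at this
      · intro h
        apply hxy
        have h1 := congrArg A7.p h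
        have h2 := congrArg A7.q h
        simpa [ho] using And.intro h1 h2
  · refine ⟨⟨0, 0, 0, 0, 1, 0, 0⟩, (mem_center_iff _).2 ⟨rfl, rfl⟩, _,
        (mem_center_iff _).2 ?_, ?_, ?_, rfl⟩
    · simp
    · intro h; have := congrArg A7.c h; simp at this
    · intro h
      have h1 := congrArg A7.c h
      simp at h1
      exact ho h1

/-- The right ideal generated by `y`, `2 c`, `2 p`. -/
def Id : Submodule (A7 ℤ)ᵐᵒᵖ (A7 ℤ) where
  carrier := {v | v.o = 0 ∧ v.x = 0 ∧ v.z = 0 ∧ Even v.c ∧ Even v.p}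
  add_mem' := by
    intro a b ha hb
    rw [Set.mem_ofPred_eq] at *
    obtain ⟨h1, h2, h3, h4, h5⟩ := ha
    obtain ⟨k1, k2, k3, k4, k5⟩ := hb
    refine ⟨?_, ?_, ?_, h4.add k4, h5.add k5⟩
    · simp [h1, k1]
    · simp [h2, k2]
    · simp [h3, k3]
  zero_mem' := by
    rw [Set.mem_ofPred_eq]
    simp
  smul_mem' := by
    intro r a ha
    rw [Set.mem_ofPred_eq] at *
    obtain ⟨h1, h2, h3, h4, h5⟩ := ha
    have hr : r • a = a * r.unop := rfl
    rw [hr]
    simp only [A7.mul_o, A7.mul_x, A7.mul_z, A7.mul_c, A7.mul_p, h1, h2, h3]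
    refine ⟨by ring, by ring, by ring, ?_, ?_⟩
    · simpa using h4.mul_right _
    · simpa using h5.mul_right _

theorem mem_Id (v : A7 ℤ) : v ∈ Id ↔ v.o = 0 ∧ v.x = 0 ∧ v.z = 0 ∧ Even v.c ∧ Even v.p := by
  unfold Id
  exact Set.mem_ofPred

theorem ess : IsEssential Id := by
  intro J hJ hcon
  obtain ⟨w, hw, hw0⟩ := (Submodule.ne_bot_iff _).1 hJ
  have key : ∀ r : A7 ℤ, w * r ∈ Id → w * r = 0 := by
    intro r hr
    have h1 : w * r ∈ J := J.smul_mem (MulOpposite.op r) hw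
    have h2 : w * r ∈ Id ⊓ J := ⟨hr, h1⟩
    rw [hcon, Submodule.mem_bot] at h2
    exact h2
  have ho : w.o = 0 := by
    have h1 := key ⟨0, 0, 0, 0, 2, 0, 0⟩ (by rw [mem_Id]; simp)
    have h2 := congrArg A7.c h1
    simpa using h2
  have hz' := key ⟨0, 0, 0, 2, 0, 0, 0⟩ (by rw [mem_Id]; simp [ho])
  have hx : w.x = 0 := by
    have h2 := congrArg A7.p hz'
    simpa [ho] using h2
  have hy : w.y = 0 := by
    have h2 := congrArg A7.q hz'
    simpa [ho] using h2
  have hz : w.z = 0 := by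
    have h1 := key ⟨0, 2, 0, 0, 0, 0, 0⟩ (by rw [mem_Id]; simp [ho])
    have h2 := congrArg A7.p h1
    simpa [ho] using h2
  have h3 := key ⟨2, 0, 0, 0, 0, 0, 0⟩ (by rw [mem_Id]; simp [ho, hx, hz])
  apply hw0
  ext
  · exact ho
  · exact hx
  · exact hy
  · exact hz
  · have h2 := congrArg A7.c h3
    simpa using h2
  · have h2 := congrArg A7.p h3
    simpa using h2
  · have h2 := congrArg A7.q h3
    simpa using h2

/-- There is a centrally essential ring `R` whose additive group is free abelian of finite rank (of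
rank seven), and an essential right ideal of `R` which is not a left ideal. -/
theorem result : ∃ (R : Type) (_ : Ring R),
    Nonempty (R ≃+ (Fin 7 → ℤ)) ∧ CentrallyEssential R ∧
      ∃ I : Submodule Rᵐᵒᵖ R, IsEssential I ∧ ∃ r : R, ∃ a ∈ I, r * a ∉ I := by
  refine ⟨A7 ℤ, inferInstance, ⟨A7.coord⟩, cE, Id, ess, ⟨0, 1, 0, 0, 0, 0, 0⟩,
    ⟨0, 0, 1, 0, 0, 0, 0⟩, ?_, ?_⟩
  · rw [mem_Id]; simp
  · rw [mem_Id]; simp

end Pool.Agent.Results.MP_4595ea_al.EssentialNotTwoSided
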